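import Mathlib

/-!
# MP_71efc4_nt: P4-sets versus P2-sets

The question asks whether in every finite abelian group of order at least `10` every P4-set is a
P2-set.  The answer is no: in the cyclic group of order `10` both critical numbers are `5`, and
`{1, 2, 5, 6}` has all nonzero elements but not `0` as nonempty subset sums.
-/

set_option autoImplicit false

open Finset

namespace Pool.Agent.Results.MP_71efc4_nt.OrderTen

/-- `Σ A`: the set of all subset sums of `A`, the empty sum `0` included. -/
def Sig {G : Type*} [AddCommGroup G] [DecidableEq G] (A : Finset G) : Finset G :=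
  A.powerset.image (fun B => ∑ b ∈ B, b)

/-- `Σ* A`: the set of all sums of nonempty subsets of `A`. -/
def SigStar {G : Type*} [AddCommGroup G] [DecidableEq G] (A : Finset G) : Finset G :=
  (A.powerset.filter (fun B => B.Nonempty)).image (fun B => ∑ b ∈ B, b)

/-- `c₀(G)`: the least `m` such that `Σ A = G` for all `A ⊆ G ∖ {0}` with `|A| ≥ m`. -/
noncomputable def c0 (G : Type*) [AddCommGroup G] [Fintype G] [DecidableEq G] : ℕ :=
  sInf {m : ℕ | ∀ A : Finset G, (0 : G) ∉ A → m ≤ A.card → Sig A = univ}

/-- `c(G)`: the least `m` such that `Σ* A = G` for all `A ⊆ G ∖ {0}` with `|A| ≥ m`. -/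
noncomputable def c (G : Type*) [AddCommGroup G] [Fintype G] [DecidableEq G] : ℕ :=
  sInf {m : ℕ | ∀ A : Finset G, (0 : G) ∉ A → m ≤ A.card → SigStar A = univ}

/-- P2-set: `A ⊆ G ∖ {0}`, `|A| = c₀(G) - 1` and `Σ A ≠ G`. -/
def IsP2 {G : Type*} [AddCommGroup G] [Fintype G] [DecidableEq G] (A : Finset G) : Prop :=
  (0 : G) ∉ A ∧ A.card + 1 = c0 G ∧ Sig A ≠ univ

/-- P4-set: `A ⊆ G ∖ {0}`, `|A| = c(G) - 1` and `Σ* A ≠ G`. -/
def IsP4 {G : Type*} [AddCommGroup G] [Fintype G] [DecidableEq G] (A : Finset G) : Prop :=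
  (0 : G) ∉ A ∧ A.card + 1 = c G ∧ SigStar A ≠ univ

theorem Sig_mono {G : Type*} [AddCommGroup G] [DecidableEq G] {A B : Finset G} (h : A ⊆ B) :
    Sig A ⊆ Sig B := image_subset_image (powerset_mono.2 h)

theorem SigStar_mono {G : Type*} [AddCommGroup G] [DecidableEq G] {A B : Finset G} (h : A ⊆ B) :
    SigStar A ⊆ SigStar B :=
  image_subset_image (filter_subset_filter _ (powerset_mono.2 h))

theorem SigStar_subset {G : Type*} [AddCommGroup G] [DecidableEq G] (A : Finset G) :
    SigStar A ⊆ Sig A := image_subset_image (filter_subset _ _)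

/-- rotation by `a` of a set of residues modulo `10`, coded by bits -/
def rot (a S : ℕ) : ℕ := ((S <<< a) ||| (S >>> (10 - a))) &&& 1023

/-- code of the set of sums of nonempty sublists of `l` modulo `10` -/
def bits : List ℕ → ℕ
  | [] => 0
  | a :: l => bits l ||| rot a (bits l ||| 1)

theorem bits_sound (l : List ℕ) (hl : ∀ a ∈ l, 1 ≤ a ∧ a ≤ 9) (hn : l.Nodup) (k : ℕ) (hk : k < 10)
    (h : (bits l).testBit k = true) :
    ∃ B : Finset (ZMod 10), B ⊆ (l.map (fun i : ℕ => (i : ZMod 10))).toFinset ∧ B.Nonempty ∧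
      ∑ b ∈ B, b = (k : ZMod 10) := by
  induction l generalizing k with
  | nil => simp [bits] at h
  | cons a l ih =>
    have hl' : ∀ b ∈ l, 1 ≤ b ∧ b ≤ 9 := fun b hb => hl b (List.mem_cons_of_mem _ hb)
    have hn' : l.Nodup := (List.nodup_cons.1 hn).2
    have hal : a ∉ l := (List.nodup_cons.1 hn).1
    have ha := hl a List.mem_cons_self
    have hsub : (l.map (fun i : ℕ => (i : ZMod 10))).toFinset ⊆
        ((a :: l).map (fun i : ℕ => (i : ZMod 10))).toFinset := by
      intro x hx
      simp only [List.map_cons, List.toFinset_cons]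
      exact mem_insert_of_mem hx
    have hanot : ((a : ℕ) : ZMod 10) ∉ (l.map (fun i : ℕ => (i : ZMod 10))).toFinset := by
      intro hmem
      rw [List.mem_toFinset, List.mem_map] at hmem
      obtain ⟨b, hb, hba⟩ := hmem
      have hb' := hl' b hb
      have h1 : b % 10 = a % 10 := (ZMod.natCast_eq_natCast_iff' b a 10).1 hba
      have h2 : b = a := by omega
      exact hal (h2 ▸ hb)
    -- step: from `j` in `bits l ||| 1` to the sum with `a`
    have key : ∀ j : ℕ, j < 10 → (bits l ||| 1).testBit j = true →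
        ∃ B : Finset (ZMod 10), B ⊆ ((a :: l).map (fun i : ℕ => (i : ZMod 10))).toFinset ∧
          B.Nonempty ∧ ∑ b ∈ B, b = ((a + j : ℕ) : ZMod 10) := by
      intro j hj hbit
      rw [Nat.testBit_or, Bool.or_eq_true] at hbit
      have hamem : ((a : ℕ) : ZMod 10) ∈ ((a :: l).map (fun i : ℕ => (i : ZMod 10))).toFinset := by
        simp
      rcases hbit with hbit | hbit
      · obtain ⟨B, hB1, hB2, hB3⟩ := ih hl' hn' j hj hbit
        refine ⟨insert (a : ZMod 10) B, ?_, insert_nonempty _ _, ?_⟩
        · exact insert_subset hamem (hB1.trans hsub)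
        · rw [sum_insert (fun hc => hanot (hB1 hc)), hB3]
          push_cast
          ring
      · have hj0 : j = 0 := by
          by_contra hne
          rw [Nat.testBit_one_eq_true_iff_self_eq_zero] at hbit
          exact hne hbit
        subst hj0
        refine ⟨{(a : ZMod 10)}, by simp, singleton_nonempty _, ?_⟩
        simp
    rw [bits, Nat.testBit_or, Bool.or_eq_true] at h
    rcases h with h | h
    · obtain ⟨B, hB1, hB2, hB3⟩ := ih hl' hn' k hk h
      exact ⟨B, hB1.trans hsub, hB2, hB3⟩
    · unfold rot at h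
      rw [Nat.testBit_and, Bool.and_eq_true, Nat.testBit_or, Bool.or_eq_true] at h
      rcases h.1 with h1 | h1
      · rw [Nat.testBit_shiftLeft, Bool.and_eq_true, decide_eq_true_eq] at h1
        obtain ⟨B, hB1, hB2, hB3⟩ := key (k - a) (by omega) h1.2
        refine ⟨B, hB1, hB2, ?_⟩
        rw [hB3]
        congr 1
        omega
      · rw [Nat.testBit_shiftRight] at h1
        by_cases hka : 10 - a + k < 10
        · obtain ⟨B, hB1, hB2, hB3⟩ := key (10 - a + k) hka h1
          refine ⟨B, hB1, hB2, ?_⟩
          rw [hB3, ZMod.natCast_eq_natCast_iff']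
          omega
        · exfalso
          -- all codes are below `1024`
          have hlt : ∀ l : List ℕ, bits l < 2 ^ 10 := by
            intro l
            induction l with
            | nil => simp [bits]
            | cons b l ihl =>
              rw [bits]
              apply Nat.or_lt_two_pow ihl
              unfold rot
              exact lt_of_le_of_lt Nat.and_le_right (by norm_num)
          have h3 : bits l ||| 1 < 2 ^ 10 := Nat.or_lt_two_pow (hlt l) (by norm_num)
          have h4 := Nat.testBit_lt_two_pow (lt_of_lt_of_le h3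
            (Nat.pow_le_pow_right (by norm_num) (show 10 ≤ 10 - a + k by omega)))
          rw [h4] at h1
          exact absurd h1 (by simp)

theorem check : ∀ l ∈ (List.range' 1 9).sublists, 5 ≤ l.length → bits l = 1023 := by
  decide +kernel

theorem five' (A : Finset (ZMod 10)) (h0 : (0 : ZMod 10) ∉ A) (h : 5 ≤ A.card) :
    SigStar A = univ := by
  set l : List ℕ := (List.range' 1 9).filter (fun i => decide ((i : ZMod 10) ∈ A)) with hl
  have hsub : l ∈ (List.range' 1 9).sublists := List.mem_sublists.2 List.filter_sublist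
  have hmem : ∀ x : ZMod 10, x ∈ A ↔ x ∈ (l.map (fun i : ℕ => (i : ZMod 10))).toFinset := by
    intro x
    rw [List.mem_toFinset, List.mem_map]
    constructor
    · intro hx
      refine ⟨x.val, ?_, ZMod.natCast_zmod_val x⟩
      rw [hl, List.mem_filter, List.mem_range', decide_eq_true_eq, ZMod.natCast_zmod_val]
      have h1 := ZMod.val_lt x
      have h2 : x.val ≠ 0 := by
        intro h3
        rw [ZMod.val_eq_zero] at h3
        exact h0 (h3 ▸ hx)
      exact ⟨⟨x.val - 1, by omega, by omega⟩, hx⟩
    · rintro ⟨i, hi, rfl⟩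
      rw [hl, List.mem_filter, decide_eq_true_eq] at hi
      exact hi.2
  have hA : A = (l.map (fun i : ℕ => (i : ZMod 10))).toFinset := by
    ext x
    exact hmem x
  have hlen : 5 ≤ l.length := by
    calc 5 ≤ A.card := h
      _ ≤ (l.map (fun i : ℕ => (i : ZMod 10))).length := by
          conv_lhs => rw [hA]
          exact List.toFinset_card_le _
      _ = l.length := List.length_map _
  have hb := check l hsub hlen
  apply eq_univ_of_forall
  intro x
  have hx := ZMod.val_lt x
  obtain ⟨B, hB1, hB2, hB3⟩ := bits_sound l (by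
    intro a ha
    rw [hl, List.mem_filter, List.mem_range'] at ha
    obtain ⟨⟨i, hi, rfl⟩, -⟩ := ha
    omega) ((List.nodup_range' _).filter _) x.val hx (by
      rw [hb]
      generalize x.val = k at hx
      interval_cases k <;> decide)
  unfold SigStar
  rw [mem_image]
  refine ⟨B, ?_, by rw [hB3, ZMod.natCast_zmod_val]⟩
  rw [mem_filter, mem_powerset]
  refine ⟨?_, hB2⟩
  rw [hA]
  exact hB1

theorem Sig_even : Sig ({2, 4, 6, 8} : Finset (ZMod 10)) ≠ univ := by decide +kernel

theorem SigStar_even : SigStar ({2, 4, 6, 8} : Finset (ZMod 10)) ≠ univ := by decide +kernel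

theorem c0_eq : c0 (ZMod 10) = 5 := by
  have hmem : (5 : ℕ) ∈ {m : ℕ | ∀ A : Finset (ZMod 10), (0 : ZMod 10) ∉ A → m ≤ A.card →
      Sig A = univ} := by
    intro A h0 h
    apply eq_univ_of_forall
    intro x
    exact SigStar_subset A (five' A h0 h ▸ mem_univ x)
  apply le_antisymm (Nat.sInf_le hmem)
  apply le_csInf ⟨5, hmem⟩
  intro m hm
  by_contra hlt
  push Not at hlt
  exact Sig_even (hm {2, 4, 6, 8} (by decide) (by
    have : ({2, 4, 6, 8} : Finset (ZMod 10)).card = 4 := by decide
    omega))

theorem c_eq : c (ZMod 10) = 5 := by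
  have hmem : (5 : ℕ) ∈ {m : ℕ | ∀ A : Finset (ZMod 10), (0 : ZMod 10) ∉ A → m ≤ A.card →
      SigStar A = univ} := fun A h0 h => five' A h0 h
  apply le_antisymm (Nat.sInf_le hmem)
  apply le_csInf ⟨5, hmem⟩
  intro m hm
  by_contra hlt
  push Not at hlt
  exact SigStar_even (hm {2, 4, 6, 8} (by decide) (by
    have : ({2, 4, 6, 8} : Finset (ZMod 10)).card = 4 := by decide
    omega))

/-- In the cyclic group of order `10` (where `c₀ = c = 5`) the set `{1, 2, 5, 6}` is a P4-set but
not a P2-set; so it is not true that in every finite abelian group of order at least `10` every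
P4-set is a P2-set. -/
theorem result :
    (IsP4 ({1, 2, 5, 6} : Finset (ZMod 10)) ∧ ¬ IsP2 ({1, 2, 5, 6} : Finset (ZMod 10))) ∧
    ¬ ∀ (G : Type) [AddCommGroup G] [Fintype G] [DecidableEq G], 10 ≤ Fintype.card G →
      ∀ A : Finset G, IsP4 A → IsP2 A := by
  have h1 : IsP4 ({1, 2, 5, 6} : Finset (ZMod 10)) := by
    refine ⟨by decide, ?_, by decide +kernel⟩
    rw [c_eq]
    decide
  have h2 : ¬ IsP2 ({1, 2, 5, 6} : Finset (ZMod 10)) := by
    rintro ⟨-, -, h⟩
    exact h (by decide +kernel)
  exact ⟨⟨h1, h2⟩, fun h => h2 (h (ZMod 10) (by simp) _ h1)⟩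

end Pool.Agent.Results.MP_71efc4_nt.OrderTen
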